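import Pool.Agent.Q274.HI.MinField

/-! The kernel of the `p`-adic Abel–Jacobi map of the base changes `M_E` of a motive `M` over a number
field `K`: the minimal fields `E` over which it is not zero. -/

namespace Pool.Agent.Results.MP_386e47_ag.MinimalFields

open NumberField Module

/-- Representations `A` and `H` of the absolute Galois group of `K` on vector spaces over `ℚ` and an
equivariant linear map `AJ` from `A` to `H`; nothing else is required. In the intended use, for a motive
`M` over `K`, `A` is the space of homologically trivial cycles over the algebraic closure of `K`, `H` the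
union of the spaces `H^1(E, V)` for the finite extensions `E` of `K`, and `AJ` the Abel–Jacobi map. -/
structure Motive (K : Type) [Field K] [NumberField K] where
  /-- `CH(M)^0` over the algebraic closure -/
  A : Type
  [grp : AddCommGroup A]
  [mod : Module ℚ A]
  /-- the union of the spaces `H^1(E, V)` -/
  H : Type
  [grpH : AddCommGroup H]
  [modH : Module ℚ H]
  /-- the action on cycles -/
  act : Gal(AlgebraicClosure K/K) →* (A →ₗ[ℚ] A)
  /-- the action on cohomology -/
  actH : Gal(AlgebraicClosure K/K) →* (H →ₗ[ℚ] H)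
  /-- the Abel–Jacobi map -/
  AJ : A →ₗ[ℚ] H
  /-- it is equivariant -/
  AJ_act : ∀ σ x, AJ (act σ x) = actH σ (AJ x)

attribute [instance] Motive.grp Motive.mod Motive.grpH Motive.modH

variable {K : Type} [Field K] [NumberField K]

/-- the conjugate of a cycle -/
noncomputable def Motive.conj (M : Motive K) (σ : Gal(AlgebraicClosure K/K)) (x : M.A) : M.A :=
  M.act σ x

/-- the kernel of the Abel–Jacobi map over `E`: the classes fixed by the automorphisms which fix `E`
with trivial image -/
def Motive.Ker (M : Motive K) (E : IntermediateField K (AlgebraicClosure K)) : Submodule ℚ M.A where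
  carrier := {x | (∀ σ : Gal(AlgebraicClosure K/K), (∀ y ∈ E, σ y = y) → M.conj σ x = x) ∧
    M.AJ x = 0}
  add_mem' := fun {a b} ha hb => ⟨fun σ hσ => by
    change M.act σ (a + b) = a + b
    rw [map_add]
    exact congrArg₂ _ (ha.1 σ hσ) (hb.1 σ hσ), by rw [map_add, ha.2, hb.2, add_zero]⟩
  zero_mem' := ⟨fun σ _ => map_zero (M.act σ), map_zero _⟩
  smul_mem' := fun c x hx => ⟨fun σ hσ => by
    change M.act σ (c • x) = c • x
    rw [map_smul]
    exact congrArg _ (hx.1 σ hσ), by rw [map_smul, hx.2, smul_zero]⟩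

/-- Q1 for `M_E` -/
def Motive.Injective (M : Motive K) (E : IntermediateField K (AlgebraicClosure K)) : Prop :=
  ∀ x ∈ M.Ker E, x = 0

/-- a minimal field over which the map is not injective -/
def Motive.Minimal (M : Motive K) (E : IntermediateField K (AlgebraicClosure K)) : Prop :=
  FiniteDimensional K E ∧ ¬ M.Injective E ∧ ∀ E' < E, M.Injective E'

/-- the automorphism maps `E` to itself and is not trivial on `E` -/
def Moves (E : IntermediateField K (AlgebraicClosure K)) (σ : Gal(AlgebraicClosure K/K)) : Prop :=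
  (∀ y ∈ E, σ y ∈ E) ∧ ∃ y ∈ E, σ y ≠ y

/-- the nontrivial automorphisms of `E` have no nonzero fixed vectors in the kernel -/
def Motive.NoFixedVectors (M : Motive K) (E : IntermediateField K (AlgebraicClosure K)) : Prop :=
  ∀ σ, Moves E σ → ∀ x ∈ M.Ker E, M.conj σ x = x → x = 0

/-- automorphisms of order two are `-1` on the kernel -/
def Motive.InvolutionsNegate (M : Motive K) (E : IntermediateField K (AlgebraicClosure K)) : Prop :=
  ∀ σ, Moves E σ → (∀ y ∈ E, σ (σ y) = y) → ∀ x ∈ M.Ker E, M.conj σ x = -x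

/-- subgroups of order `p q` and commutative subgroups of the group of automorphisms are cyclic, and
there is at most one automorphism of order two -/
def CyclicSubgroups (E : IntermediateField K (AlgebraicClosure K)) : Prop :=
  (∀ (A : Subgroup (E ≃ₐ[K] E)) (p q : ℕ), p.Prime → q.Prime → Nat.card A = p * q → IsCyclic A) ∧
  (∀ A : Subgroup (E ≃ₐ[K] E), (∀ a ∈ A, ∀ b ∈ A, a * b = b * a) → IsCyclic A) ∧
  ∀ s t : E ≃ₐ[K] E, orderOf s = 2 → orderOf t = 2 → s = t

/-- the dimension `k` of the kernel and the group of automorphisms -/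
def Motive.DimensionLaw (M : Motive K) (E : IntermediateField K (AlgebraicClosure K)) : Prop :=
  ∀ k : ℕ, Module.Finite ℚ (M.Ker E) → finrank ℚ (M.Ker E) = k →
    (∀ s : E ≃ₐ[K] E, Nat.totient (orderOf s) ∣ k) ∧
    (∀ u : ℕ, u.Coprime (Nat.card (E ≃ₐ[K] E)) → u ^ k ≡ 1 [MOD Nat.card (E ≃ₐ[K] E)]) ∧
    (Odd k → Nat.card (E ≃ₐ[K] E) ≤ 2)

open Pool.Agent.Q274.HI Pool.Agent.Q5.RG in
theorem result (K : Type) [Field K] [NumberField K] (M : Motive K) :
    (∀ E : IntermediateField K (AlgebraicClosure K), FiniteDimensional K E → ¬ M.Injective E →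
      ∃ E0 ≤ E, M.Minimal E0) ∧
    ∀ E, M.Minimal E → M.NoFixedVectors E ∧ M.InvolutionsNegate E ∧ CyclicSubgroups E ∧
      M.DimensionLaw E := by
  let ρ : Gal(AlgebraicClosure K/K) →* (M.A →ₗ[ℚ] M.A) := M.act
  let P : Submodule ℚ M.A := LinearMap.ker M.AJ
  have hP : ∀ σ, ∀ x ∈ P, ρ σ x ∈ P := by
    intro σ x hx
    rw [LinearMap.mem_ker] at hx ⊢
    have h1 : M.AJ (ρ σ x) = M.actH σ (M.AJ x) := M.AJ_act σ x
    rw [hx, map_zero] at h1
    exact h1
  have hKer : ∀ E, M.Ker E = P ⊓ ov ρ E := by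
    intro E
    ext x
    exact ⟨fun h => ⟨h.2, h.1⟩, fun h => ⟨h.2, h.1⟩⟩
  have hmem : ∀ E x, x ∈ M.Ker E ↔ x ∈ P ∧ x ∈ ov ρ E := by
    intro E x
    rw [hKer]
    exact Iff.rfl
  have hne : ∀ E, ¬ M.Injective E → ∃ y ∈ P, y ∈ ov ρ E ∧ y ≠ 0 := by
    intro E h
    unfold Motive.Injective at h
    push Not at h
    obtain ⟨x, hx, hx0⟩ := h
    exact ⟨x, ((hmem E x).1 hx).1, ((hmem E x).1 hx).2, hx0⟩
  refine ⟨fun E hE h => ?_, fun E hE => ?_⟩
  · obtain ⟨x, hx, hx', hx0⟩ := hne E h
    obtain ⟨E0, hle, ⟨y, hy, hy', hy0⟩, hm⟩ := exists_min hx hx' hx0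
    refine ⟨E0, hle, ?_, fun h' => hy0 (h' y ((hmem E0 y).2 ⟨hy, hy'⟩)), fun E' hlt z hz =>
      hm E' hlt z ((hmem E' z).1 hz).1 ((hmem E' z).1 hz).2⟩
    exact FiniteDimensional.of_injective (IntermediateField.inclusion hle).toLinearMap
      (IntermediateField.inclusion_injective hle)
  · obtain ⟨hfd, hE1, hE2⟩ := hE
    have hnf : NumberField E := NumberField.of_module_finite K E
    have hmin : ∀ E' < E, ∀ x ∈ P, x ∈ ov ρ E' → x = 0 := fun E' hlt x hx hx' =>
      hE2 E' hlt x ((hmem E' x).2 ⟨hx, hx'⟩)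
    obtain ⟨x, hx, hx', hx0⟩ := hne E hE1
    have hfree : M.NoFixedVectors E := by
      intro σ hσ y hy h
      exact free_min hmin hσ.1 hσ.2 ((hmem E y).1 hy).1 ((hmem E y).1 hy).2 h
    have hcyc : CycPQ (E ≃ₐ[K] E) := cycpq_min hP hmin hx hx' hx0
    refine ⟨hfree, ?_, ⟨hcyc, fun A hA => comm_cyc hcyc A hA, ?_⟩, ?_⟩
    · intro σ hσ h2 y hy
      have hy1 := (hmem E y).1 hy
      obtain ⟨a, ha, hax⟩ := TT_eq (ρ := ρ) hσ.1
      have hact := act_field (E := E) hP ⊤
      have h3 : M.conj σ y ∈ M.Ker E := by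
        refine (hmem E _).2 ?_
        have h4 : ρ σ y ∈ P ⊓ ov ρ E := by
          rw [hax y hy1.2]
          exact hact.mem a y ⟨hy1.1, hy1.2⟩
        exact h4
      have h5 : M.conj σ (M.conj σ y) = y := by
        have h5' : M.conj (σ * σ) y = M.conj σ (M.conj σ y) := by
          change (M.act (σ * σ)) y = _
          rw [map_mul]
          rfl
        rw [← h5']
        exact hy.1 (σ * σ) h2
      have h6 : M.conj σ (y + M.conj σ y) = y + M.conj σ y := by
        have h7 : M.conj σ (y + M.conj σ y) = M.conj σ y + M.conj σ (M.conj σ y) :=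
          map_add (M.act σ) _ _
        rw [h7, h5, add_comm]
      have h8 := hfree σ hσ _ (Submodule.add_mem _ hy h3) h6
      rw [add_comm] at h8
      exact eq_neg_of_add_eq_zero_left h8
    · intro s t hs ht
      have hact := act_field (E := E) hP ⊤
      have hfr := free_field (ρ := ρ) (P := P) hmin (⊤ : Subgroup (E ≃ₐ[K] E))
      have hneg : ∀ s : (⊤ : Subgroup (E ≃ₐ[K] E)), orderOf s = 2 → TT ρ E.val ⊤ s x = -x := by
        intro s hs
        have hs1 : s ≠ 1 := by
          rintro rfl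
          rw [orderOf_one] at hs
          omega
        have hss : s * s = 1 := by
          rw [← sq, ← hs, pow_orderOf_eq_one]
        have h1 : TT ρ E.val ⊤ s (TT ρ E.val ⊤ s x) = x := by
          rw [← hact.mul s s x ⟨hx, hx'⟩, hss]
          exact hact.one x ⟨hx, hx'⟩
        have h2 : TT ρ E.val ⊤ s (x + TT ρ E.val ⊤ s x) = x + TT ρ E.val ⊤ s x := by
          rw [map_add, h1, add_comm]
        have h3 := hfr s hs1 _ (Submodule.add_mem _ ⟨hx, hx'⟩ (hact.mem s x ⟨hx, hx'⟩)) h2
        rw [add_comm] at h3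
        exact eq_neg_of_add_eq_zero_left h3
      let s' : (⊤ : Subgroup (E ≃ₐ[K] E)) := ⟨s, Subgroup.mem_top s⟩
      let t' : (⊤ : Subgroup (E ≃ₐ[K] E)) := ⟨t, Subgroup.mem_top t⟩
      have hs' : orderOf s' = 2 := by rw [Subgroup.orderOf_mk]; exact hs
      have ht' : orderOf t' = 2 := by rw [Subgroup.orderOf_mk]; exact ht
      by_contra hst
      have h1 : s' * t' ≠ 1 := by
        intro h
        have h2 : t' * t' = 1 := by rw [← sq, ← ht', pow_orderOf_eq_one]
        have h3 : s' = t' := mul_right_cancel (h.trans h2.symm)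
        exact hst (congrArg Subtype.val h3)
      refine hx0 (hfr _ h1 x ⟨hx, hx'⟩ ?_)
      rw [hact.mul s' t' x ⟨hx, hx'⟩, hneg t' ht', map_neg, hneg s' hs', neg_neg]
    · intro k hfin hk
      rw [hKer] at hfin hk
      have h1 := fun s => totient_min hP hmin s
      have h2 : ∀ u : ℕ, u.Coprime (Nat.card (E ≃ₐ[K] E)) →
          u ^ k ≡ 1 [MOD Nat.card (E ≃ₐ[K] E)] := by
        intro u hu
        have h3 := modEq_min hP hmin hu
        rwa [hk] at h3
      rw [hk] at h1
      refine ⟨h1, h2, fun hodd => ?_⟩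
      set n := Nat.card (E ≃ₐ[K] E) with hn
      have hn0 : 0 < n := Nat.card_pos
      have h4 : (n - 1).Coprime n := by
        rw [Nat.coprime_comm]
        exact (Nat.coprime_self_sub_right hn0).2 (Nat.coprime_one_right n)
      have h5 := h2 (n - 1) h4
      have hnz : NeZero n := ⟨hn0.ne'⟩
      rw [← ZMod.natCast_eq_natCast_iff, Nat.cast_pow, Nat.cast_sub hn0, ZMod.natCast_self,
        Nat.cast_one, zero_sub, hodd.neg_one_pow] at h5
      have h6 : ((2 : ℕ) : ZMod n) = 0 := by
        push_cast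
        have h7 : (2 : ZMod n) = 1 - (-1) := by ring
        rw [h7, h5, sub_self]
      rw [ZMod.natCast_eq_zero_iff] at h6
      exact Nat.le_of_dvd (by norm_num) h6

end Pool.Agent.Results.MP_386e47_ag.MinimalFields
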