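import Pool.Agent.Q200.HS.AJ

/-!
# The p-adic Abel-Jacobi map and nearly middle dimensional cycles on almost diagonal hypersurfaces

Let `K` be a number field and `p` a prime number, both fixed. We prove that `AJ_p` is injective on
`CH^i(X)^0` for all smooth hypersurfaces `X` over `K` and all `i` as soon as it is injective on
`CH^m(W)^0` for the hypersurfaces

  `W : f(x_0, …, x_(a+1)) + (y_1^d - z_1^d) + ⋯ + (y_k^d - z_k^d) = 0`, `a ≤ ω(n)`, `n = dim W`,

in the codimensions `m` near the middle, `|2 m - n| ≤ φ(n)`, for a set of pairs `(n, d)` with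
arbitrarily large `n` of both parities and arbitrarily divisible `d`. Here `ω` and `φ` are any
functions which tend to infinity, however slowly, so almost all variables of `W` are diagonal.
-/

open CategoryTheory MonoidalCategory

universe v u w w'

namespace Pool.Agent.Results.MP_386e47_ag.NearMiddleCycles

open Pool.Agent.Q200.HS

/-- **Nearly middle dimensional cycles on almost diagonal hypersurfaces.** Let `T` be the Chow motives
and the smooth hypersurfaces over a number field `K`, with the `p`-adic Abel-Jacobi maps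
`AJ_p : CH^i(M)^0 → H^1(K, V^(2i-1)(M)(i))` for a fixed prime `p` (`hT`: known facts). Let `S` be a
set of pairs `(n, d)` which contains, for all `N` and `D` and both parities, a pair with `n ≥ N` and
`D ∣ d`, and let `ω, φ : ℕ → ℕ` tend to infinity. The following statements are equivalent.

1. `AJ_p` is injective on `CH^m(W)^0` for all hypersurfaces `W` with `(dim W, deg W) ∈ S` which are
  iterated suspensions `f(x) + (y_1^d - z_1^d) + ⋯ + (y_k^d - z_k^d) = 0` of hypersurfaces
  `X : f(x) = 0` with `dim X ≤ ω(dim W)`, and all `m` with `|2 m - dim W| ≤ φ(dim W)`.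
2. `AJ_p` is injective on `CH^i(X)^0` for all smooth hypersurfaces `X` and all `i`. -/
theorem result {𝓜 : Type u} [Category.{v} 𝓜] [Preadditive 𝓜] [MonoidalCategory 𝓜]
    [MonoidalPreadditive 𝓜] [BraidedCategory 𝓜] {T : AJData.{v, u, w, w'} 𝓜} (hT : T.Facts)
    (S : Set (ℕ × ℕ)) (hS : BothCofinal S) (ω φ : ℕ → ℕ)
    (hω : Filter.Tendsto ω Filter.atTop Filter.atTop)
    (hφ : Filter.Tendsto φ Filter.atTop Filter.atTop) :
    (∀ X W : T.Hyp, Relation.ReflTransGen T.Susp X W → (T.dim W, T.deg W) ∈ S →
        T.dim X ≤ ω (T.dim W) → ∀ m, 2 * m ≤ T.dim W + φ (T.dim W) →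
          T.dim W ≤ 2 * m + φ (T.dim W) → T.Inj m (T.mot W)) ↔
      ∀ (X : T.Hyp) (i : ℕ), T.Inj i (T.mot X) :=
  (AJData.final hT S hS ω φ hω hφ).out 0 1

end Pool.Agent.Results.MP_386e47_ag.NearMiddleCycles
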