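import Pool.Agent.Q200.HS.AJ

/-!
# The p-adic Abel-Jacobi map for products of hypersurfaces over a number field

Let `K` be a number field and `p` a prime number, both fixed. We prove that `AJ_p` is injective for
all the motives which occur in products `X_1 × ⋯ × X_r` of smooth hypersurfaces over `K`, of any
dimensions and degrees, in all codimensions, as soon as it is injective for the single smooth
hypersurfaces over `K`.

For a tensor product `M` of primitive motives, of weight `N`, the injectivity of `AJ_p` says that
`CH^i(M) = 0` for `2 i ≠ N, N + 1`, that `CH^i(M)^0 = 0` for `2 i = N`, and that `AJ_p` is injective on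
`CH^i(M)` for `2 i = N + 1`. So the vanishing of the Chow groups of all these `M` outside of two
codimensions is decided by single hypersurfaces.
-/

open CategoryTheory MonoidalCategory

universe v u w w'

namespace Pool.Agent.Results.MP_386e47_ag.ProductsOfHypersurfaces

open Pool.Agent.Q28.HJ (pow)
open Pool.Agent.Q200.HS

/-- **Injectivity of the `p`-adic Abel-Jacobi map for products of hypersurfaces.** Let `T` be the Chow
motives and the smooth hypersurfaces over a number field `K`, with the `p`-adic Abel-Jacobi maps
`AJ_p : CH^i(M)^0 → H^1(K, V^(2i-1)(M)(i))` for a fixed prime `p` (`hT`: known facts). The following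
statements are equivalent.

1. `AJ_p` is injective on `CH^i(X)^0` for all smooth hypersurfaces `X` and all `i`.
2. `AJ_p` is injective on `CH^i(M)^0` for all `i` and all motives `M` which are obtained from motives
  of smooth hypersurfaces, the unit and the Lefschetz motive by tensor products, direct sums and
  direct summands; in particular for all products `X_1 × ⋯ × X_r`.
3. For all tensor products `M` of primitive motives of smooth hypersurfaces, of weight `N`:
  `CH^i(M) = 0` if `2 i ≠ N` and `2 i ≠ N + 1`; `CH^i(M)^0 = 0` if `2 i = N`; and `AJ_p` is injective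
  on `CH^i(M)^0 = CH^i(M)` if `2 i = N + 1`. -/
theorem result {𝓜 : Type u} [Category.{v} 𝓜] [Preadditive 𝓜] [MonoidalCategory 𝓜]
    [MonoidalPreadditive 𝓜] [BraidedCategory 𝓜] {T : AJData.{v, u, w, w'} 𝓜} (hT : T.Facts) :
    [∀ (X : T.Hyp) (i : ℕ), T.Inj i (T.mot X),
      ∀ M : 𝓜, T.Gen M → ∀ i, T.Inj i M,
      ∀ (N : ℕ) (M : 𝓜), T.IsProd N M →
        (∀ i, 2 * i ≠ N → 2 * i ≠ N + 1 → ∀ f : pow T.L i ⟶ M, f = 0) ∧
          (∀ i, 2 * i = N → ∀ f : pow T.L i ⟶ M, T.null f → f = 0) ∧
            ∀ i, 2 * i = N + 1 → T.Inj i M].TFAE := by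
  have h := AJData.final hT Set.univ
    (fun ε N D hD => ⟨(ε + 2 * N, D), trivial, by simp, by simp; omega, dvd_refl _, hD⟩) id id
    Filter.tendsto_id Filter.tendsto_id
  tfae_have 1 → 2 := fun h1 => (h.out 1 2).mp h1
  tfae_have 2 → 3 := fun h1 => (h.out 2 3).mp h1
  tfae_have 3 → 1 := fun h1 => (h.out 3 1).mp h1
  tfae_finish

end Pool.Agent.Results.MP_386e47_ag.ProductsOfHypersurfaces
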