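import Pool.Agent.Q226.SC.ZQ

set_option autoImplicit false

/-!
# The kernels of the `p`-adic étale Abel-Jacobi maps on zero-cycles over number fields
-/

namespace Pool.Agent.Results.MP_386e47_ag.RationalPointsOnSurfaces

open Pool.Agent.Q226.SC

/-- Zero-cycles on smooth projective varieties over number fields, considered as varieties over `ℚ`,
and the `p`-adic étale Abel-Jacobi maps; the index is the prime `p`.

1. For every smooth projective variety `X` of positive dimension over a number field, every
zero-cycle `z` on `X` and every prime `p`, a multiple of `z` is homologically trivial with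
Abel-Jacobi image `0` if and only if a multiple of it is `E(t) - E(t')` for a family `E` over `ℚ` of
effective zero-cycles on `X` parametrised by a geometrically simply connected smooth projective
surface `T` over `ℚ` and two rational points `t, t'` of `T`. So the kernel does not depend on `p`.

2. For each `p`, the map `AJ_p` is injective on rational Chow groups of zero-cycles of degree `0`
for all `X` if and only if any two rational points of a geometrically simply connected smooth
projective surface over `ℚ` are rationally equivalent up to torsion.

3. This is the case if and only if the dimension of the space spanned by the differences of rational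
points of `T` in `CH₀(T) ⊗ ℚ` is bounded, uniformly in these surfaces `T`. -/
theorem result (G : Geo) (C : Cycles G) (Q : Arith C) (h : Facts C) (q : Q.Facts) :
    (∀ X : Q.Sch, 1 ≤ G.dim (Q.geo X) → ∀ (z : Q.Z X) (p : Q.Index),
      ((∃ n : ℕ, 0 < n ∧ Q.AJKernel p X (n • z)) ↔
        ∃ (T : Q.Sch) (E : Q.FamQ T X) (t t' : Q.Pts T) (n : ℕ),
          Q.SCSurface T ∧ 0 < n ∧ n • z = Q.cyc E t - Q.cyc E t')) ∧
    (∀ p : Q.Index, ((∀ X : Q.Sch, 1 ≤ G.dim (Q.geo X) → Q.Injective p X) ↔
      ∀ T : Q.Sch, Q.SCSurface T → Q.PointsEquivalent T)) ∧
    ((∀ T : Q.Sch, Q.SCSurface T → Q.PointsEquivalent T) ↔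
      ∃ m : ℕ, ∀ T : Q.Sch, Q.SCSurface T → Q.RankBelow m T) :=
  ⟨fun X hX z p => aj_kernel_iff h q p X hX z, fun p => aj_injective_iff h q p, rank_law q⟩

end Pool.Agent.Results.MP_386e47_ag.RationalPointsOnSurfaces
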